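import Pool.Agent.W555.KS.Defs

/-! KS-DTOP2 (project of helper555, MP_dd083e_co). -/

set_option autoImplicit false

namespace Pool.Agent.W925.KS

open Finset MvPolynomial Pool.Agent.W555.KS

attribute [local instance] MvPolynomial.gradedAlgebra

section
variable {n : ℕ} {k : Type} [Field k]

theorem hc_mul {p : MvPolynomial (Fin n) k} {m : ℕ} (hp : p.IsHomogeneous m)
    (q : MvPolynomial (Fin n) k) (N : ℕ) :
    homogeneousComponent N (p * q) =
      if m ≤ N then p * homogeneousComponent (N - m) q else 0 := by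
  conv_lhs => rw [← sum_homogeneousComponent q, Finset.mul_sum, map_sum]
  have h1 : ∀ i, homogeneousComponent N (p * homogeneousComponent i q) =
      if N = m + i then p * homogeneousComponent i q else 0 := fun i =>
    homogeneousComponent_of_mem (hp.mul (homogeneousComponent_isHomogeneous i q))
  rw [Finset.sum_congr rfl (fun i _ => h1 i)]
  split_ifs with h
  · have h2 : ∀ i ∈ Finset.range (q.totalDegree + 1),
        (if N = m + i then p * homogeneousComponent i q else 0) =
        if i = N - m then p * homogeneousComponent (N - m) q else 0 := by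
      intro i _
      by_cases hi : i = N - m
      · subst hi
        rw [if_pos (by omega), if_pos rfl]
      · rw [if_neg (by omega), if_neg hi]
    rw [Finset.sum_congr rfl h2, Finset.sum_ite_eq']
    split_ifs with h3
    · rfl
    · rw [homogeneousComponent_eq_zero, mul_zero]
      simp only [Finset.mem_range] at h3
      omega
  · apply Finset.sum_eq_zero
    intro i _
    rw [if_neg (by omega)]

theorem isHomogeneous_lf (c : Fin n → k) : (lf c).IsHomogeneous 1 := by
  unfold lf
  refine IsHomogeneous.sum _ _ _ fun v _ => ?_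
  exact isHomogeneous_C_mul_X _ _

theorem homog_srI (L : Finset (Finset (Fin n))) :
    (srI k L).IsHomogeneous (homogeneousSubmodule (Fin n) k) := by
  unfold srI
  apply Ideal.homogeneous_span
  rintro _ ⟨σ, _, rfl⟩
  refine ⟨∑ v ∈ σ, 1, ?_⟩
  exact IsHomogeneous.prod _ _ _ fun v _ => isHomogeneous_X _ _

theorem homog_Ij (d j : ℕ) (L : Finset (Finset (Fin n))) :
    (Ij n d j L).IsHomogeneous (homogeneousSubmodule (Fin n) (Kf (d + 1) n)) := by
  unfold Ij
  refine (homog_srI L).sup ?_
  apply Ideal.homogeneous_span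
  rintro _ ⟨i, _, rfl⟩
  exact ⟨1, isHomogeneous_lf _⟩

/-- the degree `r` part of the quotient -/
noncomputable abbrev im (I : Ideal (MvPolynomial (Fin n) k)) (r : ℕ) :
    Submodule k (MvPolynomial (Fin n) k ⧸ I) :=
  Submodule.map (Ideal.Quotient.mkₐ k I).toLinearMap (homogeneousSubmodule (Fin n) k r)

instance fin_hs (r : ℕ) : Module.Finite k (homogeneousSubmodule (Fin n) k r) :=
  Module.Finite.iff_fg.2 (homogeneousSubmodule_fg k (σ := Fin n) r)

instance fin_im (I : Ideal (MvPolynomial (Fin n) k)) (r : ℕ) : Module.Finite k (im I r) :=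
  Module.Finite.iff_fg.2 ((homogeneousSubmodule_fg k (σ := Fin n) r).map _)

end

theorem Ij_eq (n d : ℕ) (L : Finset (Finset (Fin n))) :
    srI (Kf (d + 1) n) L ⊔
      Ideal.span (Set.range (fun i : Fin d => lf (gen (d + 1) n i.castSucc))) = Ij n d d L := by
  unfold Ij
  congr 2
  ext p
  constructor
  · rintro ⟨i, rfl⟩
    exact ⟨i.castSucc, by simp, rfl⟩
  · rintro ⟨i, hi, rfl⟩
    exact ⟨⟨i, hi⟩, rfl⟩

theorem dtop2 (ht2 : StT2) : StDTop2 := by
  intro n d L hL hE r hr
  have key : ∀ p : MvPolynomial (Fin n) (Kf (d + 1) n), p.IsHomogeneous r →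
      ∃ f : MvPolynomial (Fin n) (Kf (d + 1) n), p - homogeneousComponent r
        (lf (gen (d + 1) n (Fin.last d)) ^ (2 * r - d) * f) ∈ Ij n d d L := by
    intro p hp
    have h1 := ht2 n d L hL hE r hr p hp
    rw [Ij_eq] at h1
    obtain ⟨i, hi, y, hy, e⟩ := Submodule.mem_sup.1 h1
    obtain ⟨f, rfl⟩ := Ideal.mem_span_singleton'.1 hy
    refine ⟨f, ?_⟩
    have h2 := homogeneousComponent_mem_of_mem (homog_Ij d d L) hi r
    have h3 : homogeneousComponent r p = p := homogeneousComponent_eq_self hp
    rw [← e, map_add] at h3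
    have h4 : p - homogeneousComponent r (lf (gen (d + 1) n (Fin.last d)) ^ (2 * r - d) * f) =
        homogeneousComponent r i := by
      rw [← e, ← h3, mul_comm f]
      simp only [add_sub_cancel_right]
    rw [h4]
    exact h2
  have hw : (lf (gen (d + 1) n (Fin.last d)) ^ (2 * r - d)).IsHomogeneous (2 * r - d) := by
    have := (isHomogeneous_lf (gen (d + 1) n (Fin.last d))).pow (2 * r - d)
    rwa [one_mul] at this
  split_ifs with hrd
  · have hle : im (Ij n d d L) r ≤ Submodule.map (LinearMap.mulLeft (Kf (d + 1) n)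
        (Ideal.Quotient.mk (Ij n d d L) (lf (gen (d + 1) n (Fin.last d)) ^ (2 * r - d))))
        (im (Ij n d d L) (d - r)) := by
      rintro _ ⟨p, hp, rfl⟩
      obtain ⟨f, hf⟩ := key p hp
      rw [hc_mul hw, if_pos (by omega), show r - (2 * r - d) = d - r by omega] at hf
      refine ⟨_, ⟨homogeneousComponent (d - r) f, homogeneousComponent_mem _ _, rfl⟩, ?_⟩
      have h1 := Ideal.Quotient.eq.2 hf
      rw [map_mul] at h1
      exact h1.symm
    exact (Submodule.finrank_mono hle).trans (Submodule.finrank_map_le _ _)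
  · have hle : im (Ij n d d L) r = ⊥ := by
      rw [eq_bot_iff]
      rintro _ ⟨p, hp, rfl⟩
      obtain ⟨f, hf⟩ := key p hp
      rw [hc_mul hw, if_neg (by omega), sub_zero] at hf
      exact (Submodule.mem_bot _).2 (Ideal.Quotient.eq_zero_iff_mem.2 hf)
    unfold dimQ
    have h2 : Submodule.map (Ideal.Quotient.mkₐ (Kf (d + 1) n) (Ij n d d L)).toLinearMap
      (homogeneousSubmodule (Fin n) (Kf (d + 1) n) r) = ⊥ := hle
    rw [h2, finrank_bot]

theorem dtop (h1 : StDTop1) (h2 : StDTop2) : StDTop := by
  intro n d L hn hL hE r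
  unfold Nh
  split_ifs with hr
  · have := h2 n d L hL hE r (by omega)
    rwa [if_neg (by omega)] at this
  · by_cases h : d < 2 * r
    · have h3 := h2 n d L hL hE r h
      rw [if_pos (by omega)] at h3
      have h4 := h1 n d L hn (d - r)
      rw [min_eq_right (by omega)]
      exact h3.trans h4
    · rw [min_eq_left (by omega)]
      exact h1 n d L hn r

end Pool.Agent.W925.KS
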